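import Mathlib

set_option autoImplicit false
set_option linter.unusedSectionVars false

open Finset

namespace Pool.Agent.H.MP_1bb742_co

variable {V : Type} [Fintype V] [DecidableEq V]

def Dec (k : ℕ) (X Y : Finset (Sym2 V)) : Prop := ∃ (c : Sym2 V → ℕ) (σ : ℕ → Equiv.Perm V),
  (∀ e ∈ X, c e < k) ∧ Set.BijOn (fun e => Sym2.map (σ (c e)) e) X Y

theorem inj (σ : Equiv.Perm V) : Function.Injective (Sym2.map σ) := Sym2.map.injective σ.injective

theorem Dec.card {k : ℕ} {X Y : Finset (Sym2 V)} (h : Dec k X Y) : X.card = Y.card :=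
  let ⟨_, _, _, h⟩ := h; card_nbij _ h.1 h.2.1 h.2.2

theorem Dec.union {k l : ℕ} {X Y X' Y' : Finset (Sym2 V)} (h : Dec k X Y) (h' : Dec l X' Y')
    (d : Disjoint X X') (d' : Disjoint Y Y') : Dec (k + l) (X ∪ X') (Y ∪ Y') := by
  obtain ⟨c, σ, h1, h2⟩ := h
  obtain ⟨c', σ', h3, h4⟩ := h'
  refine ⟨fun e => if e ∈ X then c e else k + c' e, fun i => if i < k then σ i else σ' (i - k),
    fun e he => ?_, ?_⟩
  · dsimp only
    split_ifs with a
    · exact (h1 e a).trans_le (by omega)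
    · have := h3 e ((mem_union.1 he).resolve_left a); omega
  have a1 := h2.congr (f₂ := fun e => Sym2.map (if (if e ∈ X then c e else k + c' e) < k then σ (if e ∈ X
    then c e else k + c' e) else σ' ((if e ∈ X then c e else k + c' e) - k) : Equiv.Perm V) e)
    fun e he => by simp [show e ∈ X from he, h1 e he]
  have a2 := h4.congr (f₂ := fun e => Sym2.map (if (if e ∈ X then c e else k + c' e) < k then σ (if e ∈ X
    then c e else k + c' e) else σ' ((if e ∈ X then c e else k + c' e) - k) : Equiv.Perm V) e)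
    fun e he => by simp [show e ∉ X from disjoint_right.1 d he]
  rw [coe_union, coe_union]
  refine a1.union a2 (Set.injOn_union (by exact_mod_cast d) |>.2 ⟨a1.2.1, a2.2.1, fun x hx y hy e => ?_⟩)
  exact disjoint_left.1 d' (a1.1 hx) (mem_coe.1 (Set.mem_of_eq_of_mem e (a2.1 hy)))

theorem Dec.symm {k : ℕ} {X Y : Finset (Sym2 V)} (h : Dec k X Y) : Dec k Y X := by
  obtain ⟨c, σ, h1, h2⟩ := h
  rcases isEmpty_or_nonempty (Sym2 V) with _ | _
  · exact ⟨c, σ, by simp, by simp [Subsingleton.elim X ∅, Subsingleton.elim Y ∅]⟩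
  have h3 := h2.symm h2.invOn_invFunOn.symm
  refine ⟨fun y => c (Function.invFunOn (fun e => Sym2.map (σ (c e)) e) X y), fun i => (σ i)⁻¹,
    fun y hy => h1 _ (h3.1 hy), h3.congr fun y hy => inj (σ (c (Function.invFunOn
      (fun e => Sym2.map (σ (c e)) e) X y))) ?_⟩
  rw [Sym2.map_map]
  simpa [Function.comp_def] using h2.invOn_invFunOn.2 hy

theorem run (I : Finset (Sym2 V) → Finset (Sym2 V) → Prop) {θ : ℝ} (hθ : θ ≤ 1)
    (step : ∀ X Y, I X Y → ∃ Z ⊆ X, ∃ σ : Equiv.Perm V, Z.image (Sym2.map σ) ⊆ Y ∧ θ * X.card ≤ Z.card ∧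
      I (X \ Z) (Y \ Z.image (Sym2.map σ))) (k : ℕ) :
    ∀ X Y, I X Y → (1 - θ) ^ k * X.card < 1 → ∃ W ⊆ Y, Dec k X W := by
  induction k with
  | zero =>
    intro X Y _ h
    obtain rfl : X = ∅ := card_eq_zero.1 (by simpa using h)
    exact ⟨∅, by simp, fun _ => 0, fun _ => 1, by simp, by simp⟩
  | succ k ih =>
    intro X Y h h'
    obtain ⟨Z, a1, σ, a2, a3, a4⟩ := step X Y h
    obtain ⟨W, b1, b2⟩ := ih _ _ a4 (lt_of_le_of_lt (by
      rw [card_sdiff_of_subset a1, Nat.cast_sub (card_le_card a1), pow_succ, mul_assoc]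
      exact mul_le_mul_of_nonneg_left (by linarith) (pow_nonneg (by linarith) _)) h')
    have b3 : Dec 1 Z (Z.image (Sym2.map σ)) := ⟨fun _ => 0, fun _ => σ, by simp, by
      rw [coe_image]; exact (inj σ).injOn.bijOn_image⟩
    exact ⟨_, union_subset (b1.trans sdiff_subset) a2, sdiff_union_of_subset a1 ▸
      b2.union b3 sdiff_disjoint (sdiff_disjoint.mono_left b1)⟩

def ND (X : Finset (Sym2 V)) : Prop := ∀ e ∈ X, ¬ e.IsDiag

def Dg (X : Finset (Sym2 V)) (d : ℕ) : Prop := ∀ v, (X.filter (v ∈ ·)).card ≤ d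

theorem ND.mono {X Y : Finset (Sym2 V)} (h : ND Y) (s : X ⊆ Y) : ND X := fun e he => h e (s he)

theorem Dg.mono {X Y : Finset (Sym2 V)} {d : ℕ} (h : Dg Y d) (s : X ⊆ Y) : Dg X d :=
  fun v => (card_le_card (filter_subset_filter _ s)).trans (h v)

theorem iso {M N : Finset (Sym2 V)} (h1 : ND M) (h2 : ND N) (h3 : Dg M 1) (h4 : Dg N 1)
    (h : M.card = N.card) : ∃ σ : Equiv.Perm V, M.image (Sym2.map σ) = N := by
  let f : Sym2 V → Bool → V := fun e b => if b then e.out.1 else e.out.2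
  have f0 : ∀ e, s(f e true, f e false) = e := fun e => e.out_eq
  have f1 : ∀ M : Finset (Sym2 V), ND M → Dg M 1 → Function.Injective fun x : M × Bool => f x.1 x.2 := by
    rintro M a b ⟨e, i⟩ ⟨e', j⟩ k
    have m : ∀ e i, f e i ∈ e := fun e i => by
      cases i; exacts [Sym2.out_snd_mem e, Sym2.out_fst_mem e]
    obtain rfl : e = e' := Subtype.ext (card_le_one.1 (b (f e i)) _ (mem_filter.2 ⟨e.2, m _ _⟩) _
      (mem_filter.2 ⟨e'.2, (show f e i = f e' j from k) ▸ m _ _⟩))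
    have := a e e.2
    rw [← f0 e, Sym2.mk_isDiag_iff] at this
    cases i <;> cases j <;> simp_all
  let b := equivOfCardEq h
  obtain ⟨σ, hσ⟩ := Equiv.Perm.exists_extending_pair _ _ (f1 M h1 h3)
    ((f1 N h2 h4).comp (b.prodCongr (.refl Bool)).injective)
  refine ⟨σ, eq_of_subset_of_card_le (fun y hy => ?_) (by rw [card_image_of_injective _ (inj σ), h])⟩
  obtain ⟨e, he, rfl⟩ := mem_image.1 hy
  rw [← f0 e, Sym2.map_pair_eq, hσ (⟨e, he⟩, true), hσ (⟨e, he⟩, false)]
  simp [f0]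

theorem avg {X Y : Finset (Sym2 V)} (hX : ND X) (hY : ND Y) : ∃ σ : Equiv.Perm V,
    X.card * Y.card ≤ Fintype.card V ^ 2 * (X.filter (Sym2.map σ · ∈ Y)).card := by
  have h1 : ∀ e f g : Sym2 V, ¬ f.IsDiag → ¬ g.IsDiag →
      (univ.filter fun σ : Equiv.Perm V => Sym2.map σ e = f).card =
      (univ.filter fun σ : Equiv.Perm V => Sym2.map σ e = g).card := fun e f g a b => by
    obtain ⟨τ, h⟩ := iso (M := {f}) (N := {g}) (by simpa [ND]) (by simpa [ND])
      (fun v => (card_filter_le _ _).trans_eq rfl) (fun v => (card_filter_le _ _).trans_eq rfl) rfl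
    rw [image_singleton, singleton_inj] at h
    refine card_equiv (Equiv.mulLeft τ) fun σ => ?_
    simp only [mem_filter, mem_univ, true_and, Equiv.coe_mulLeft, Equiv.Perm.coe_mul, ← Sym2.map_map, ← h,
      (inj τ).eq_iff]
  have h2 : ∀ e ∈ X, ∀ g ∈ Y, Fintype.card (Equiv.Perm V) ≤ Fintype.card V ^ 2 *
      (univ.filter fun σ : Equiv.Perm V => Sym2.map σ e = g).card := fun e he g hg => by
    rw [← card_univ, card_eq_sum_card_fiberwise (f := fun σ : Equiv.Perm V => Sym2.map σ e)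
      (t := univ.filter (¬ ·.IsDiag)) fun σ _ => by
        simpa [Sym2.isDiag_map σ.injective] using hX e he,
      sum_congr rfl fun f hf => h1 e f g (mem_filter.1 hf).2 (hY g hg), sum_const, smul_eq_mul]
    refine Nat.mul_le_mul_right _ ((card_le_univ _).trans ?_)
    rw [sq, ← Fintype.card_prod]
    exact Fintype.card_le_of_surjective _ Sym2.mk_surjective
  refine (exists_le_of_sum_le (s := univ) univ_nonempty ?_).imp fun σ h => h.2
  have h3 := sum_le_sum fun e he => sum_le_sum fun g hg => h2 e he g hg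
  simp only [sum_const, smul_eq_mul, card_univ, ← mul_sum] at h3 ⊢
  refine le_trans (le_of_eq (by ring)) (h3.trans_eq ?_)
  simp only [card_filter]
  rw [sum_comm (s := univ)]
  congr 1
  exact sum_congr rfl fun e _ => by rw [sum_comm]; simp

theorem maxsub {X : Finset (Sym2 V)} {Δ : ℕ} (h : Dg X Δ) (d : ℕ) :
    ∃ U ⊆ X, Dg U d ∧ d * X.card ≤ (d + 2 * Δ) * U.card := by
  classical
  obtain ⟨U, h1, h2⟩ := exists_max_image (X.powerset.filter (Dg · d)) card ⟨∅, by simp [Dg]⟩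
  obtain ⟨h3, h4⟩ := mem_filter.1 h1
  rw [mem_powerset] at h3
  refine ⟨U, h3, h4, ?_⟩
  let S := univ.filter fun v => d ≤ (U.filter (v ∈ ·)).card
  have a1 : X \ U ⊆ S.biUnion fun v => X.filter (v ∈ ·) := fun e he => by
    obtain ⟨b1, b2⟩ := mem_sdiff.1 he
    by_contra k
    have := h2 (insert e U) (mem_filter.2 ⟨mem_powerset.2 (insert_subset b1 h3), fun v => by
      rw [filter_insert]
      split_ifs with c
      · refine (card_insert_le _ _).trans (Nat.succ_le_of_lt (not_le.1 fun c' => k ?_))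
        exact mem_biUnion.2 ⟨v, mem_filter.2 ⟨mem_univ _, c'⟩, mem_filter.2 ⟨b1, c⟩⟩
      · exact h4 v⟩)
    rw [card_insert_of_notMem b2] at this; omega
  have a2 := (card_le_card a1).trans (card_biUnion_le_card_mul _ _ Δ fun v _ => h v)
  have a3 : S.card * d ≤ U.card * 2 := card_mul_le_card_mul (fun v e => v ∈ e)
    (fun v hv => (mem_filter.1 hv).2) fun e _ => by
      induction e with | _ a b =>
      exact (card_le_card (t := {a, b}) fun v hv => by simpa using (mem_filter.1 hv).2).trans card_le_two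
  rw [← card_sdiff_add_card_eq_card h3]
  nlinarith [Nat.mul_le_mul_left d a2, Nat.mul_le_mul_left Δ a3]

theorem absorb {θ : ℝ} (hθ : θ ≤ 1) (k : ℕ) {X Y : Finset (Sym2 V)} (hX : ND X) (hY : ND Y)
    (h : X.Nonempty → X.card + θ * Fintype.card V ^ 2 ≤ Y.card) (hk : (1 - θ) ^ k * X.card < 1) :
    ∃ W ⊆ Y, Dec k X W := by
  refine run (fun X Y => ND X ∧ ND Y ∧ (X.Nonempty → X.card + θ * Fintype.card V ^ 2 ≤ Y.card)) hθ ?_
    k X Y ⟨hX, hY, h⟩ hk
  rintro X Y ⟨a1, a2, a3⟩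
  obtain ⟨σ, a4⟩ := avg a1 a2
  have a5 : (X.filter (Sym2.map σ · ∈ Y)).image (Sym2.map σ) ⊆ Y :=
    image_subset_iff.2 fun e he => (mem_filter.1 he).2
  refine ⟨_, filter_subset _ _, σ, a5, ?_, a1.mono sdiff_subset, a2.mono sdiff_subset, fun b => ?_⟩
  · rcases X.eq_empty_or_nonempty with rfl | b
    · simp
    have : Nonempty V := let ⟨e, _⟩ := b; ⟨e.out.1⟩
    have b1 : (X.card : ℝ) * Y.card ≤ Fintype.card V ^ 2 * (X.filter (Sym2.map σ · ∈ Y)).card := by
      exact_mod_cast a4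
    have b2 : (0 : ℝ) ≤ X.card := by positivity
    refine le_of_mul_le_mul_left ?_ (show (0 : ℝ) < Fintype.card V ^ 2 by
      have := Fintype.card_pos (α := V); positivity)
    nlinarith [mul_le_mul_of_nonneg_left (a3 b) b2]
  · rw [card_sdiff_of_subset (filter_subset _ _), card_sdiff_of_subset a5, Nat.cast_sub (card_le_card a5),
      Nat.cast_sub (card_filter_le _ _), card_image_of_injective _ (inj σ)]
    linarith [a3 (b.mono sdiff_subset)]

theorem mat {θ : ℝ} {D : ℕ} (h0 : 0 ≤ θ) (hθ : θ * (1 + 2 * D) ≤ 1) (k : ℕ) {X Y : Finset (Sym2 V)}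
    (hX : ND X) (hY : ND Y) (dX : Dg X D) (dY : Dg Y D) (h : X.card = Y.card)
    (hk : (1 - θ) ^ k * X.card < 1) : Dec k X Y := by
  obtain ⟨W, h1, h2⟩ := run (fun X Y => ND X ∧ ND Y ∧ Dg X D ∧ Dg Y D ∧ X.card = Y.card) (θ := θ)
    (by nlinarith [mul_nonneg h0 (Nat.cast_nonneg (α := ℝ) D)]) (by
      rintro X Y ⟨a1, a2, a3, a4, a5⟩
      obtain ⟨M, b1, b2, b3⟩ := maxsub a3 1
      obtain ⟨N, c1, c2, c3⟩ := maxsub a4 1
      obtain ⟨M', d1, d2⟩ := exists_subset_card_eq (min_le_left M.card N.card)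
      obtain ⟨N', e1, e2⟩ := exists_subset_card_eq (min_le_right M.card N.card)
      obtain ⟨σ, rfl⟩ := iso (a1.mono (d1.trans b1)) (a2.mono (e1.trans c1)) (b2.mono d1) (c2.mono e1)
        (d2.trans e2.symm)
      refine ⟨M', d1.trans b1, σ, e1.trans c1, ?_, a1.mono sdiff_subset, a2.mono sdiff_subset,
        a3.mono sdiff_subset, a4.mono sdiff_subset, by
          rw [card_sdiff_of_subset (d1.trans b1), card_sdiff_of_subset (e1.trans c1), a5, d2, e2]⟩
      have : X.card ≤ (1 + 2 * D) * M'.card := by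
        rw [d2]; rcases min_choice M.card N.card with h | h <;> rw [h] <;> omega
      have f : (X.card : ℝ) ≤ (1 + 2 * D) * M'.card := by exact_mod_cast this
      nlinarith [mul_le_mul_of_nonneg_left f h0, mul_le_mul_of_nonneg_right hθ
        (Nat.cast_nonneg (α := ℝ) M'.card)]) k X Y ⟨hX, hY, dX, dY, h⟩ hk
  rwa [eq_of_subset_of_card_le h1 (h ▸ h2.card.le)] at h2

theorem main {θ : ℝ} {D u k : ℕ} (h0 : 0 ≤ θ) (hθ : θ * (1 + 2 * D) ≤ 1)
    (hu : 2 * (θ * Fintype.card V ^ 2) + 1 ≤ u) (hk : (1 - θ) ^ k * Fintype.card V ^ 2 < 1)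
    {X Y : Finset (Sym2 V)} (hX : ND X) (hY : ND Y) (h : X.card = Y.card)
    (hD : (D + 2 * Fintype.card V) * u ≤ D * X.card) (hD0 : 0 < D) : Dec (k + k + k + k) X Y := by
  have t1 : θ ≤ 1 := by nlinarith [mul_nonneg h0 (Nat.cast_nonneg (α := ℝ) D)]
  have k0 : ∀ Z : Finset (Sym2 V), (1 - θ) ^ k * Z.card < 1 := fun Z => lt_of_le_of_lt
    (mul_le_mul_of_nonneg_left (by
      have := (card_le_univ Z).trans (Fintype.card_le_of_surjective _ Sym2.mk_surjective)
      rw [Fintype.card_prod, ← sq] at this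
      exact_mod_cast this) (pow_nonneg (by linarith) _)) hk
  have h1 : ∀ X : Finset (Sym2 V), (D + 2 * Fintype.card V) * u ≤ D * X.card →
      ∃ U ⊆ X, Dg U D ∧ U.card = u := fun X h => by
    obtain ⟨U, a1, a2, a3⟩ := maxsub (X := X) (Δ := Fintype.card V) (fun v => (card_le_card (t :=
      univ.image fun w => s(v, w)) fun e he => by
        obtain ⟨w, rfl⟩ := Sym2.mem_iff_exists.1 (mem_filter.1 he).2
        simp).trans card_image_le) D
    obtain ⟨W, a4, a5⟩ := exists_subset_card_eq (Nat.le_of_mul_le_mul_left (h.trans a3) (by omega))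
    exact ⟨W, a4.trans a1, a2.mono a4, a5⟩
  obtain ⟨U, a1, a2, a3⟩ := h1 X hD
  obtain ⟨U', b1, b2, b3⟩ := h1 Y (h ▸ hD)
  have c0 : (X \ U).card = (Y \ U').card := by
    rw [card_sdiff_of_subset a1, card_sdiff_of_subset b1, h, a3, b3]
  obtain ⟨R, c1, c2⟩ := exists_subset_card_eq (min_le_left (X \ U).card ⌈θ * Fintype.card V ^ 2⌉₊)
  have c3 : (R.card : ℝ) ≤ θ * Fintype.card V ^ 2 + 1 := le_trans (by exact_mod_cast c2 ▸ min_le_right _ _)
    (Nat.ceil_lt_add_one (by positivity)).le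
  obtain ⟨W, d1, d2⟩ := absorb t1 k (X := (X \ U) \ R) (Y := Y \ U')
    (hX.mono (sdiff_subset.trans sdiff_subset)) (hY.mono sdiff_subset) (fun b => by
      have := b.card_pos
      rw [card_sdiff_of_subset c1] at this ⊢
      rw [Nat.cast_sub (card_le_card c1), ← c0, show R.card = ⌈θ * Fintype.card V ^ 2⌉₊ by omega]
      linarith [Nat.le_ceil (θ * Fintype.card V ^ 2)]) (k0 _)
  have c4 : ((Y \ U') \ W).card = R.card := by
    have := card_le_card c1
    rw [card_sdiff_of_subset d1, ← d2.card, card_sdiff_of_subset c1]; omega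
  obtain ⟨P', e1, e2⟩ := absorb t1 k (X := R) (Y := U') (hX.mono (c1.trans sdiff_subset)) (hY.mono b1)
    (fun _ => by rw [b3]; linarith) (k0 _)
  obtain ⟨P, f1, f2⟩ := absorb t1 k (X := (Y \ U') \ W) (Y := U) (hY.mono (sdiff_subset.trans sdiff_subset))
    (hX.mono a1) (fun _ => by rw [a3, c4]; linarith) (k0 _)
  have g := mat h0 hθ k (X := U \ P) (Y := U' \ P') (hX.mono (sdiff_subset.trans a1))
    (hY.mono (sdiff_subset.trans b1)) (a2.mono sdiff_subset) (b2.mono sdiff_subset) (by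
      rw [card_sdiff_of_subset f1, card_sdiff_of_subset e1, a3, b3, ← f2.card, ← e2.card, c4]) (k0 _)
  simp only [subset_iff, mem_sdiff] at a1 b1 c1 d1 e1 f1
  convert ((d2.union e2 ?_ ?_).union f2.symm ?_ ?_).union g ?_ ?_ using 1 <;>
    simp only [disjoint_left, Finset.ext_iff, mem_union, mem_sdiff] <;> grind

end Pool.Agent.H.MP_1bb742_co
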